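import Pool.Agent.Helper15.TS.St

/-!
Module CLA of project TS (MP_434a84_lc).
-/

set_option autoImplicit false

namespace Pool.Agent.Helper94.TS

open Pool.Agent.Helper22.FL Pool.Agent.Helper22.CS Pool.Agent.Helper15.TS

variable {n : ℕ}

private theorem toQ_add (x y : Fin n → ℕ) : toQ (x + y) = toQ x + toQ y := by
  funext i; simp [toQ]

private theorem toQ_smul (k : ℕ) (x : Fin n → ℕ) : toQ (k • x) = (k : ℚ) • toQ x := by
  funext i; simp [toQ]

/-- periods of a part of `r.2` can be added inside the linear set -/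
private theorem lin_restr {a x : Fin n → ℕ} {P : Finset (Fin n → ℕ)} {I : Finset (Fin n)} (hx : x ∈ lin a P) :
    lin x (restr P I) ⊆ lin a P := by
  classical
  rintro y ⟨t, rfl⟩
  obtain ⟨u, rfl⟩ := hx
  refine ⟨fun p => u p + if p ∈ restr P I then t p else 0, ?_⟩
  have h1 : ∑ p ∈ restr P I, t p • p = ∑ p ∈ P, (if p ∈ restr P I then t p else 0) • p := by
    have h2 : restr P I ⊆ P := Finset.filter_subset _ _
    rw [← Finset.sum_subset h2]
    · apply Finset.sum_congr rfl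
      intro p hp
      rw [if_pos hp]
    · intro p _ hp
      rw [if_neg hp, zero_smul]
  rw [h1, add_assoc, ← Finset.sum_add_distrib]
  congr 1
  apply Finset.sum_congr rfl
  intro p _
  rw [add_smul]

/-- three integral vectors near `m v` are natural -/
private theorem exists_nat {I : Finset (Fin n)} {v : Fin n → ℕ} (hv1 : ∀ i ∈ I, 1 ≤ v i)
    (hv0 : ∀ i, i ∉ I → v i = 0) (m : ℕ) (g : Fin n → ℤ) (hg0 : ∀ i, i ∉ I → g i = 0)
    (hm : ∀ i, |g i| + 1 ≤ (m : ℤ)) :
    ∃ a : Fin n → ℕ, (∀ i, (a i : ℤ) = m * v i + g i) ∧ (∀ i, i ∉ I → a i = 0) ∧ ∀ i ∈ I, a i ≠ 0 := by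
  have h1 : ∀ i ∈ I, 1 ≤ (m : ℤ) * v i + g i := by
    intro i hi
    have a1 := hv1 i hi
    have a2 := hm i
    have a3 := neg_abs_le (g i)
    have a4 : (1 : ℤ) ≤ v i := by exact_mod_cast a1
    nlinarith
  have h2 : ∀ i, i ∉ I → (m : ℤ) * v i + g i = 0 := by
    intro i hi
    rw [hv0 i hi, hg0 i hi]
    simp
  have h3 : ∀ i, ((((m : ℤ) * v i + g i).toNat : ℕ) : ℤ) = m * v i + g i := by
    intro i
    apply Int.toNat_of_nonneg
    by_cases hi : i ∈ I
    · linarith [h1 i hi]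
    · rw [h2 i hi]
  refine ⟨fun i => ((m : ℤ) * v i + g i).toNat, h3, fun i hi => ?_, fun i hi h0 => ?_⟩
  · have := h3 i
    rw [h2 i hi] at this
    show ((m : ℤ) * v i + g i).toNat = 0
    rw [h2 i hi]
    rfl
  · have a1 := h3 i
    have a2 := h1 i hi
    simp only at h0
    rw [h0] at a1
    push_cast at a1
    linarith

theorem stcla (hPMP : StPMP) (hLINE : StLINE) (hGENA : StGENA) (hGENB : StGENB) (hFUL : StFUL) : StCLA := by
  classical
  intro n S R hRep hSlim hTest I P c' d hI hP hd hS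
  obtain ⟨t, ht1, ht⟩ := hGENA n P (R.image fun r => spQ (restr r.2 I))
  obtain ⟨g1, g2, hg0, hg⟩ := hGENB n I ((R.image fun r => spQ (restr r.2 I)).filter
    fun V => Module.finrank ℚ V + 2 ≤ I.card) (fun V hV => (Finset.mem_filter.1 hV).2)
  obtain ⟨v, hv⟩ : ∃ v, v = ∑ p ∈ P, t p • p := ⟨_, rfl⟩
  have hvi : ∀ i, v i = ∑ p ∈ P, t p * p i := by
    intro i
    rw [hv, Finset.sum_apply]
    simp
  have hv0 : ∀ i, i ∉ I → v i = 0 := by
    intro i hi
    rw [hvi]
    apply Finset.sum_eq_zero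
    intro p hp
    have : p i = 0 := by
      by_contra hne
      apply hi
      rw [← hP]
      exact Finset.mem_biUnion.2 ⟨p, hp, mem_letters.2 hne⟩
    rw [this, mul_zero]
  have hv1 : ∀ i ∈ I, 1 ≤ v i := by
    intro i hi
    rw [← hP] at hi
    obtain ⟨p, hp, hpi⟩ := Finset.mem_biUnion.1 hi
    have h1 : 1 ≤ t p * p i := Nat.mul_pos (ht1 p) (Nat.pos_of_ne_zero (mem_letters.1 hpi))
    rw [hvi]
    exact h1.trans (Finset.single_le_sum (f := fun p => t p * p i) (fun _ _ => Nat.zero_le _) hp)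
  obtain ⟨m, hm⟩ : ∃ m : ℕ, m = ∑ i, ((g1 i).natAbs + (g2 i).natAbs) + 1 := ⟨_, rfl⟩
  have hmi : ∀ i, |g1 i| + |g2 i| + 1 ≤ (m : ℤ) := by
    intro i
    have h1 := Finset.single_le_sum (f := fun i => (g1 i).natAbs + (g2 i).natAbs) (fun _ _ => Nat.zero_le _)
      (Finset.mem_univ i)
    have h2 : (g1 i).natAbs + (g2 i).natAbs + 1 ≤ m := by
      rw [hm]
      exact Nat.add_le_add_right h1 1
    rw [Int.abs_eq_natAbs, Int.abs_eq_natAbs]
    exact_mod_cast h2
  obtain ⟨a0, ha0, ha0', ha0''⟩ := exists_nat hv1 hv0 m (fun i => - g1 i) (fun i hi => by simp [(hg0 i hi).1])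
    (fun i => by
      have := hmi i
      have := abs_nonneg (g2 i)
      rw [abs_neg]
      linarith)
  obtain ⟨a1, ha1, ha1', ha1''⟩ := exists_nat hv1 hv0 m (fun i => - g2 i) (fun i hi => by simp [(hg0 i hi).2])
    (fun i => by
      have := hmi i
      have := abs_nonneg (g1 i)
      rw [abs_neg]
      linarith)
  obtain ⟨a2, ha2, ha2', ha2''⟩ := exists_nat hv1 hv0 m (fun i => g1 i + g2 i)
    (fun i hi => by simp [(hg0 i hi).1, (hg0 i hi).2])
    (fun i => by
      have := hmi i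
      have := abs_add_le (g1 i) (g2 i)
      linarith)
  have hasum : a0 + a1 + a2 = (3 * m) • v := by
    funext i
    have h1 : ((a0 i + a1 i + a2 i : ℕ) : ℤ) = ((3 * m * v i : ℕ) : ℤ) := by
      push_cast
      rw [ha0, ha1, ha2]
      ring
    have h2 : a0 i + a1 i + a2 i = 3 * m * v i := by exact_mod_cast h1
    simpa using h2
  obtain ⟨i0, hi0⟩ : I.Nonempty := Finset.card_pos.1 (by omega)
  have hne : ∀ a : Fin n → ℕ, (∀ i ∈ I, a i ≠ 0) → d • a ≠ 0 := by
    intro a ha h0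
    have h1 := congrFun h0 i0
    simp only [Pi.smul_apply, smul_eq_mul, Pi.zero_apply, mul_eq_zero] at h1
    rcases h1 with h1 | h1
    · omega
    · exact ha i0 hi0 h1
  obtain ⟨K, hK1, hK⟩ := hPMP n S hTest c' ![d • a0, d • a1, d • a2] (by
    intro j
    fin_cases j
    · exact hne a0 ha0''
    · exact hne a1 ha1''
    · exact hne a2 ha2'')
  have hsum3 : ∀ k : Fin 3 → ℕ, ∑ j, k j • (![d • a0, d • a1, d • a2] : Fin 3 → Fin n → ℕ) j =
      d • (k 0 • a0 + k 1 • a1 + k 2 • a2) := by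
    intro k
    rw [Fin.sum_univ_three]
    simp only [Matrix.cons_val_zero, Matrix.cons_val_one, Matrix.cons_val_two, Matrix.head_cons,
      Matrix.tail_cons]
    rw [smul_add, smul_add, smul_comm d (k 0), smul_comm d (k 1), smul_comm d (k 2)]
  have hconst : ∀ s : ℕ, (s + K) • a0 + (s + K) • a1 + (s + K) • a2 = (3 * m * (s + K)) • v := by
    intro s
    rw [← smul_add, ← smul_add, hasum, smul_smul]
    congr 1
    ring
  have hkS : ∀ s : ℕ, c' + ∑ j, (fun _ : Fin 3 => s + K) j • (![d • a0, d • a1, d • a2] : Fin 3 → Fin n → ℕ) j ∈ S := by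
    intro s
    rw [hsum3, hconst, hv]
    have h1 := hS fun p => 3 * m * (s + K) * t p
    have h2 : ∑ p ∈ P, (3 * m * (s + K) * t p) • p = (3 * m * (s + K)) • ∑ p ∈ P, t p • p := by
      rw [Finset.smul_sum]
      exact Finset.sum_congr rfl fun p _ => by rw [smul_smul]
    rw [h2] at h1
    exact h1
  have hex : ∀ s : ℕ, ∃ ρ : Fin 3 → ℕ, 1 ≤ ρ 1 ∧ (ρ 0 = 0 ∨ ρ 2 = 0) ∧
      ∀ i : ℕ, c' + d • ((3 * m * (s + K)) • v + i • (ρ 0 • a0 + ρ 1 • a1 + ρ 2 • a2)) ∈ S := by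
    intro s
    obtain ⟨ρ, h1, -, h3, h4⟩ := hK _ (hkS s) (Nat.le_add_left K s)
    refine ⟨ρ, h1, h3, fun i => ?_⟩
    have h5 := h4 i
    rw [hsum3 (fun j => s + K + i * ρ j)] at h5
    have h6 : (s + K + i * ρ 0) • a0 + (s + K + i * ρ 1) • a1 + (s + K + i * ρ 2) • a2 =
        (3 * m * (s + K)) • v + i • (ρ 0 • a0 + ρ 1 • a1 + ρ 2 • a2) := by
      funext j
      have h7 := congrFun (hconst s) j
      simp only [Pi.add_apply, Pi.smul_apply, smul_eq_mul] at h7 ⊢
      rw [← h7]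
      ring
    rw [h6] at h5
    exact h5
  choose ρ hρ1 hρ2 hρ3 using hex
  obtain ⟨w, hw⟩ : ∃ w : ℕ → Fin n → ℕ, w = fun s => d • (ρ s 0 • a0 + ρ s 1 • a1 + ρ s 2 • a2) := ⟨_, rfl⟩
  have hwz : ∀ s i, i ∉ I → w s i = 0 := by
    intro s i hi
    rw [hw]
    simp [ha0' i hi, ha1' i hi, ha2' i hi]
  have hm1 : 1 ≤ m := by rw [hm]; omega
  have hmem : ∀ s i : ℕ, c' + (d * (3 * m * (s + K))) • v + i • w s ∈ S := by
    intro s i
    have h1 := hρ3 s i
    have h2 : c' + (d * (3 * m * (s + K))) • v + i • w s =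
        c' + d • ((3 * m * (s + K)) • v + i • (ρ s 0 • a0 + ρ s 1 • a1 + ρ s 2 • a2)) := by
      rw [hw]
      funext j
      simp only [Pi.add_apply, Pi.smul_apply, smul_eq_mul]
      ring
    rw [h2]
    exact h1
  have hmono : StrictMono fun s : ℕ => d * (3 * m * (s + K)) := by
    intro s s' hs
    have h1 : 3 * m * (s + K) < 3 * m * (s' + K) := Nat.mul_lt_mul_of_pos_left (by omega) (by omega)
    exact Nat.mul_lt_mul_of_pos_left h1 (by omega)
  obtain ⟨r, hr, s, i, hx, hvV, hwV⟩ := hLINE n S R hRep I c' v (fun s => d * (3 * m * (s + K))) w hmono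
    (fun j hj => by
      by_contra hn
      exact mem_letters.1 hj (hv0 j hn))
    (fun s j hj => by
      by_contra hn
      exact mem_letters.1 hj (hwz s j hn)) hmem
  obtain ⟨hlet, hfr⟩ := hFUL n S R hRep hSlim r hr I v hI hv1 hvV
  have hVmem : spQ (restr r.2 I) ∈ R.image fun r => spQ (restr r.2 I) := Finset.mem_image_of_mem _ hr
  have hPV := ht _ hVmem (by rw [← hv]; exact hvV)
  refine ⟨r, hr, c' + (d * (3 * m * (s + K))) • v + i • w s,
    (3 * m * (s + K)) • v + i • (ρ s 0 • a0 + ρ s 1 • a1 + ρ s 2 • a2), ?_, hlet, ?_, hPV, ?_, ?_, ?_⟩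
  · intro y hy
    exact (hRep.2 y).2 ⟨r, hr, lin_restr hx hy⟩
  · by_contra hne2
    have hV2 : Module.finrank ℚ (spQ (restr r.2 I)) + 2 ≤ I.card := by omega
    have hkey := hg _ (Finset.mem_filter.2 ⟨hVmem, hV2⟩) ((d : ℚ) * ((ρ s 2 : ℚ) - ρ s 0))
      ((d : ℚ) * ((ρ s 2 : ℚ) - ρ s 1)) (by
        have h1 : (fun j => (d : ℚ) * ((ρ s 2 : ℚ) - ρ s 0) * (g1 j : ℚ) +
            (d : ℚ) * ((ρ s 2 : ℚ) - ρ s 1) * (g2 j : ℚ)) =
            toQ (w s) - ((d : ℚ) * m * ((ρ s 0 : ℚ) + ρ s 1 + ρ s 2)) • toQ v := by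
          funext j
          have e0 : (a0 j : ℚ) = m * v j + - g1 j := by exact_mod_cast congrArg (Int.cast : ℤ → ℚ) (ha0 j)
          have e1 : (a1 j : ℚ) = m * v j + - g2 j := by exact_mod_cast congrArg (Int.cast : ℤ → ℚ) (ha1 j)
          have e2 : (a2 j : ℚ) = m * v j + (g1 j + g2 j) := by
            exact_mod_cast congrArg (Int.cast : ℤ → ℚ) (ha2 j)
          rw [hw]
          simp only [toQ, Pi.sub_apply, Pi.smul_apply, Pi.add_apply, smul_eq_mul]
          push_cast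
          rw [e0, e1, e2]
          ring
        rw [h1]
        exact Submodule.sub_mem _ hwV (Submodule.smul_mem _ _ hvV))
    have hd0 : (d : ℚ) ≠ 0 := by
      have : d ≠ 0 := by omega
      exact_mod_cast this
    have k1 : (ρ s 2 : ℚ) - ρ s 0 = 0 := (mul_eq_zero.1 hkey.1).resolve_left hd0
    have k2 : (ρ s 2 : ℚ) - ρ s 1 = 0 := (mul_eq_zero.1 hkey.2).resolve_left hd0
    have k3 : ρ s 2 = ρ s 0 := by
      have : (ρ s 2 : ℚ) = ρ s 0 := by linarith
      exact_mod_cast this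
    have k4 : ρ s 2 = ρ s 1 := by
      have : (ρ s 2 : ℚ) = ρ s 1 := by linarith
      exact_mod_cast this
    have k5 := hρ1 s
    rcases hρ2 s with k6 | k6 <;> omega
  · have h1 : toQ (c' + (d * (3 * m * (s + K))) • v + i • w s) - toQ c' =
        ((d * (3 * m * (s + K)) : ℕ) : ℚ) • toQ v + (i : ℚ) • toQ (w s) := by
      rw [toQ_add, toQ_add, toQ_smul, toQ_smul]
      abel
    rw [h1]
    exact Submodule.add_mem _ (Submodule.smul_mem _ _ hvV) (Submodule.smul_mem _ _ hwV)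
  · rw [hw]
    funext j
    simp only [Pi.add_apply, Pi.smul_apply, smul_eq_mul]
    ring
  · intro j hj
    simp [hv0 j hj, ha0' j hj, ha1' j hj, ha2' j hj]

end Pool.Agent.Helper94.TS
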